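import Pool.Agent.Run7.h245.MO.Mo

/-!
# Almost all elliptic curves of a residue class have a twist of rank zero, and twists with all 2-Selmer dimensions

Let `F` be ANY number field. The pairs `(a, b)` of integers of `F` are ordered by the height of the problem,
`H(a, b) = max_σ max (4 |σ a|³, 27 |σ b|²)`.

Theorem. For every `N` and every `δ > 0` there are a natural number `m ≥ 1` and a residue class `(a₀, b₀)` modulo `m` such that, for
all large `X`, the proportion of the pairs `(a, b)` with the following property among ALL pairs in this residue class with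
`H(a, b) ≤ X` is at least `1 - δ`: the pair belongs to the family of the problem (`4 a³ + 27 b² ≠ 0`, no nonzero prime ideal `𝔭`
has `𝔭⁴ ∣ a` and `𝔭⁶ ∣ b`), and for every `d ≤ N` there is a natural number `D ≠ 0` dividing `m` such that the quadratic twist
`E ^ D : y² = x³ + a D² x + b D³` has a 2-Selmer group over `F` with exactly `2 ^ d` elements. For `d = 0` the group `E ^ D(F)` is
finite of odd order (the rank is `0`), and the 2-primary part of `Ш(E ^ D / F)` is zero.

So the twists which one needs are taken from a FIXED finite list, and they work for all curves of the residue class up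
to an arbitrarily small proportion. Before, over a general number field only positive proportions (without control of
the constant) were known, for rank `0` (`MP_7cad78_nt.RankZeroEveryNumberField`, project PF) and for single 2-Selmer
dimensions (`MP_8cb858_nt.EveryTwoSelmerDimension`, project SR); the theorems on quadratic twists of one curve
(Heath-Brown, Swinnerton-Dyer, Kane, Mazur-Rubin, Klagsbrun-Mazur-Rubin, Smith) give twists which depend on the curve.

The proof. `f = x ^ 3 + a x + b` is prescribed at the small primes (the sum of `N(𝔭) ^ (-2)` over the other primes is less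
than `δ`, so that almost all `f` have a squarefree discriminant outside of the small primes: Dedekind domains, a
square-free sieve) and at the rational primes `q` of a large finite set `S` which is the union of levels `T_0, ..., T_K`
(`f` is `x` times an irreducible polynomial modulo one prime `𝔮` over `q`, irreducible modulo the others). By counting pairs
of symmetric matrices, the `f` for which there is a class of `F(θ)` (`f(θ) = 0`) with square norm, ramified at most at the
earlier levels, and trivial at more than `(1/2 + ε)` of the primes of the level `T_k` have density at most `η_k`, relative to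
all `f` which satisfy the congruences; and `∑ η_k` is small compared with the density `W ^ (-2 [F : ℚ])` of the conditions
at the small primes. The latter is achieved since the bound `2 ^ (-|S|)` for the `f` with
a class trivial at all primes of `S` does not depend on `W`. For all other `f` the linear algebra over the field with
two elements of project SR gives for all `d ≤ N` a subset `J ⊆ S` such that the twist by the product `D` of the elements of `J`
has exactly `2 ^ d` Selmer classes.

Files: `Pool/Agent/Run7/h245/MO/{Sm,Lx,Cn,Tr,Mo}.lean` (helper245), built on project SR (helpers 13, 67, 68, 228, 245, 277,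
366, 382, 576, 697, 711, 713, 796, 824, 890) and on the starting files of project PF (helper783 and others). `Pt`, `Sep`, `act`,
`rs`, `IsCoc`, `LocTriv`, `Comp` are the group of points, separable closures, the action of the Galois group, continuous
cocycles and their restriction to completions of `Pool.Agent.TH115.GD`.
-/

set_option autoImplicit false
set_option linter.all false

namespace Pool.Agent.Results.MP_7cad78_nt.AlmostAllCurvesOfAClass

open Filter NumberField IsDedekindDomain Pool.Agent.TH115.GD
open scoped Classical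

section family

variable (F : Type) [Field F] [NumberField F]

/-- The family of the problem: pairs of integers `(A, B)` with `4 A ^ 3 + 27 B ^ 2 ≠ 0` for which no nonzero prime ideal
`𝔭` satisfies both `𝔭 ^ 4 ∣ A` and `𝔭 ^ 6 ∣ B`. -/
def Family : Set (𝓞 F × 𝓞 F) :=
  {p | 4 * p.1 ^ 3 + 27 * p.2 ^ 2 ≠ 0 ∧
    ∀ 𝔭 : Ideal (𝓞 F), 𝔭.IsPrime → 𝔭 ≠ ⊥ → ¬ (p.1 ∈ 𝔭 ^ 4 ∧ p.2 ∈ 𝔭 ^ 6)}

variable {F}

/-- The height `max_σ max (4 |σ A|³, 27 |σ B|²)`, over the embeddings `σ : F → ℂ`. -/
noncomputable def height (p : 𝓞 F × 𝓞 F) : ℝ :=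
  ⨆ σ : F →+* ℂ, max (4 * ‖σ (p.1 : F)‖ ^ 3) (27 * ‖σ (p.2 : F)‖ ^ 2)

/-- All pairs of height at most `X` in the residue class of `(a₀, b₀)` modulo `m`. -/
def InClass (m : ℕ) (a₀ b₀ : 𝓞 F) (X : ℝ) : Set (𝓞 F × 𝓞 F) :=
  {p | (m : 𝓞 F) ∣ p.1 - a₀ ∧ (m : 𝓞 F) ∣ p.2 - b₀ ∧ height p ≤ X}

end family

section selmer

variable (K : Type) [Field K] [NumberField K] (W : WeierstrassCurve K)

/-- The cocycle `f` of `Gal(Sep K / K)` is a coboundary over all completions of `K`: at every maximal ideal
of the ring of integers and over `ℝ` for every real embedding (over `ℂ` there is no condition). -/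
structure Locally (f : (Sep K ≃ₐ[K] Sep K) → Pt W (Sep K)) : Prop where
  finite : ∀ v : HeightOneSpectrum (𝓞 K), LocTriv W (Comp (𝓞 K) K v) (Sep (Comp (𝓞 K) K v)) f
  real : ∀ ρ : K →+* ℝ, letI := ρ.toAlgebra; LocTriv W ℝ (Sep ℝ) f

/-- A continuous cocycle of `Gal(Sep K / K)` with values in the points of order two, which is a coboundary (with
values in all points) over all completions. -/
structure IsSelmer (f : (Sep K ≃ₐ[K] Sep K) → Pt W (Sep K)) : Prop where
  coc : IsCoc W f
  two : ∀ σ, (2 : ℕ) • f σ = 0
  loc : Locally K W f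

/-- Cocycles are equivalent if they differ by the coboundary of a point of order two. -/
def selmerSetoid : Setoid {f : (Sep K ≃ₐ[K] Sep K) → Pt W (Sep K) // IsSelmer K W f} where
  r f f' := ∃ T : Pt W (Sep K), (2 : ℕ) • T = 0 ∧ ∀ σ, f.1 σ - f'.1 σ = act W (rs K σ) T - T
  iseqv := by
    refine ⟨fun f => ⟨0, smul_zero _, fun σ => by rw [map_zero]; abel⟩, ?_, ?_⟩
    · rintro f f' ⟨T, hT, h⟩
      refine ⟨-T, by rw [smul_neg, hT, neg_zero], fun σ => ?_⟩
      have e : f'.1 σ - f.1 σ = -(f.1 σ - f'.1 σ) := by abel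
      rw [map_neg, e, h σ]
      abel
    · rintro f f' f'' ⟨T, hT, h⟩ ⟨T', hT', h'⟩
      refine ⟨T + T', by rw [smul_add, hT, hT', add_zero], fun σ => ?_⟩
      have e : f.1 σ - f''.1 σ = (f.1 σ - f'.1 σ) + (f'.1 σ - f''.1 σ) := by abel
      rw [e, h, h', map_add]
      abel

/-- The 2-Selmer group of `W`, as a set. -/
def SelmerTwo : Type := Quotient (selmerSetoid K W)

/-- The 2-primary part of the Tate-Shafarevich group is zero: if a continuous cocycle is a coboundary over all completions
and its class is killed by a power of two, then it is a coboundary. -/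
def ShaTwoTrivial : Prop :=
  ∀ f : (Sep K ≃ₐ[K] Sep K) → Pt W (Sep K), IsCoc W f → Locally K W f →
    (∃ (n : ℕ) (Q : Pt W (Sep K)), ∀ σ, 2 ^ n • f σ = act W (rs K σ) Q - Q) →
    ∃ Q : Pt W (Sep K), ∀ σ, f σ = act W (rs K σ) Q - Q

end selmer

section good

variable {F : Type} [Field F] [NumberField F]

/-- The curve `y ^ 2 = x ^ 3 + a x + b`. -/
def curve (a b : F) : WeierstrassCurve F := ⟨0, 0, 0, a, b⟩

/-- The twist by `D` of the curve which belongs to a pair. -/
def twist (p : 𝓞 F × 𝓞 F) (D : ℕ) : WeierstrassCurve F :=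
  curve ((p.1 : F) * (D : F) ^ 2) ((p.2 : F) * (D : F) ^ 3)

/-- The pair belongs to the family; for every `d ≤ N` there is a quadratic twist by a natural number `D ≠ 0` dividing `m`
with a 2-Selmer group over `F` with exactly `2 ^ d` elements; for `d = 0` its group of points over `F` is finite of odd
order and the 2-primary part of its Tate-Shafarevich group is zero. -/
structure Good (N m : ℕ) (p : 𝓞 F × 𝓞 F) : Prop where
  mem : p ∈ Family F
  twists : ∀ d ≤ N, ∃ D : ℕ, D ≠ 0 ∧ D ∣ m ∧ Nat.card (SelmerTwo F (twist p D)) = 2 ^ d ∧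
    (d = 0 → Finite (twist p D).toAffine.Point ∧ Odd (Nat.card (twist p D).toAffine.Point) ∧
      ShaTwoTrivial F (twist p D))

end good

theorem card_eq (K : Type) [Field K] [NumberField K] (W : WeierstrassCurve K) :
    Nat.card (SelmerTwo K W) = Nat.card (Pool.Agent.Run7.h245.SR.Sel2 K W) := by
  have e : ∀ f : (Sep K ≃ₐ[K] Sep K) → Pt W (Sep K), IsSelmer K W f ↔
      Pool.Agent.Run7.h245.SR.SelCoc K W f := fun f =>
    ⟨fun h => ⟨h.coc, h.two, h.loc.finite, h.loc.real⟩, fun h => ⟨h.coc, h.two, ⟨h.finite, h.real⟩⟩⟩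
  refine Nat.card_congr (Quotient.congr (Equiv.subtypeEquivRight e) ?_)
  intro f f'
  exact Iff.rfl

theorem height_le {F : Type} [Field F] [NumberField F] (X : ℝ) (p : 𝓞 F × 𝓞 F) :
    height p ≤ X ↔ p ∈ Pool.Agent.Run7.h245.MO.Hg (F := F) X := by
  have hb : BddAbove (Set.range fun σ : F →+* ℂ =>
      max (4 * ‖σ (p.1 : F)‖ ^ 3) (27 * ‖σ (p.2 : F)‖ ^ 2)) := Set.Finite.bddAbove (Set.finite_range _)
  constructor
  · intro h σ
    exact max_le_iff.1 ((le_ciSup hb σ).trans h)
  · intro h
    exact ciSup_le fun σ => max_le_iff.2 (h σ)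

theorem inClass_eq {F : Type} [Field F] [NumberField F] (m : ℕ) (a₀ b₀ : 𝓞 F) (X : ℝ) :
    InClass m a₀ b₀ X = Pool.Agent.Run7.h245.MO.Cl m a₀ b₀ ∩ Pool.Agent.Run7.h245.MO.Hg X := by
  ext p
  constructor
  · rintro ⟨h1, h2, h3⟩
    exact ⟨⟨h1, h2⟩, (height_le X p).1 h3⟩
  · rintro ⟨⟨h1, h2⟩, h3⟩
    exact ⟨h1, h2, (height_le X p).2 h3⟩

/-- For every number field `F`, every `N` and every `δ > 0` there are `m > 0` and a residue class modulo `m` such that for all
large `X` at least `1 - δ` of the pairs of the class of height at most `X` are `Good N m`. -/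
theorem result (F : Type) [Field F] [NumberField F] (N : ℕ) (δ : ℝ) (hδ : 0 < δ) :
    ∃ (m : ℕ) (a₀ b₀ : 𝓞 F), 0 < m ∧ ∀ᶠ X : ℝ in atTop,
      (InClass m a₀ b₀ X).Finite ∧ 0 < (InClass m a₀ b₀ X).ncard ∧
      (1 - δ) * ((InClass m a₀ b₀ X).ncard : ℝ) ≤
        ({p ∈ InClass m a₀ b₀ X | Good N m p}.ncard : ℝ) := by
  obtain ⟨m, a₀, b₀, hm, h⟩ := Pool.Agent.Run7.h245.MO.moF F N δ hδ
  refine ⟨m, a₀, b₀, hm, ?_⟩
  filter_upwards [h] with X hX
  rw [← inClass_eq] at hX
  obtain ⟨h1, h2, h3⟩ := hX
  refine ⟨h1, h2, h3.trans ?_⟩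
  refine Nat.cast_le.2 (Set.ncard_le_ncard ?_ (h1.subset fun p hp => hp.1))
  rintro p ⟨hp, hq⟩
  refine ⟨hp, ⟨hq.disc, hq.min⟩, fun d hd => ?_⟩
  obtain ⟨D, g1, g2, g3, g4⟩ := hq.all d hd
  refine ⟨D, g1, g2, ?_, fun h0 => ?_⟩
  · rw [card_eq]
    exact g3
  · obtain ⟨k1, k2, k3⟩ := g4 h0
    refine ⟨k1, k2, fun f hf hl hn => ?_⟩
    obtain ⟨Q, hQ⟩ := k3 f hf ⟨hl.finite, hl.real⟩ hn
    exact ⟨Q, hQ⟩

end Pool.Agent.Results.MP_7cad78_nt.AlmostAllCurvesOfAClass
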