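import Pool.Agent.Run7.h876.MN.Fin

/-!
# The law of weighted Mestre-Nagao sums

`K` is any number field and `𝓕_i`, `i` in a finite set, are families `f_t = F₀ + (∏ (X - x_l)) (t₀ X + t₁ + ∑ t_j P_j)`
of monic polynomials of degree at least three over the ring of integers; all the curves `y² = f_t(x)` pass
through the given points `(x_l, y_l)`, `l < r`.  The number of the marked points of the Jacobians is `rk`
(`r` in odd degree, `r + 1` in even degree).  For `F₀ = X³` and `r = 0` these are all the elliptic curves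
`y² = x³ + Ax + B`.

`mestreNagao Z W f = -(1 / log Z) ∑_{Nv ≤ Z} a_v (log Nv / Nv) W(log Nv / log Z)` is the Mestre-Nagao sum of
length `Z` with the weight `W`.

1. For all continuous weights `W_i` the sums `∑ mestreNagao Z W_i C_i` are asymptotically normal, with the mean
`∑ rk_i ∫ W_i` and the variance `∑ ∫ x W_i(x)²`, for `Z → ∞` and boxes with sides at least a power of `Z`.
2. If `∫ W = 1`, then the proportion of the members for which the number `rk` of the marked points is the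
integer nearest to the Mestre-Nagao sum tends to `Φ(1/(2σ)) - Φ(-1/(2σ))`, `σ² = ∫ x W(x)²`.
3. For each `ε > 0` there is a weight with which the sums find the number of the marked points of all of
the curves for a proportion at least `1 - ε` of the members.
-/

set_option autoImplicit false

open NumberField IsDedekindDomain

namespace Pool.Agent.Results.MP_7cad78_nt.LawOfMestreNagaoSums

open Run7.h876.MN Run7.h876.HY Run7.h9.TP Run7.h9.BS

/-- **The law of weighted Mestre-Nagao sums.** -/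
theorem result (K : Type) [Field K] [NumberField K] (I : Type) [Fintype I] [DecidableEq I]
    (J : I → Type) [∀ i, Fintype (J i)] [∀ i, DecidableEq (J i)] (𝓕 : ∀ i, Family K (J i)) :
    -- the joint law
    (∀ W : I → ℝ → ℝ, (∀ i, Continuous (W i)) → 0 < ∑ i, ∫ y in (0 : ℝ)..1, y * W i y ^ 2 →
      ∀ (ι : Type) [Fintype ι] [DecidableEq ι] (ω : Module.Basis ι ℤ (𝓞 K)) (a ε : ℝ), 0 < ε →
        ∃ C Z₀ : ℕ, ∀ Z : ℕ, Z₀ ≤ Z → ∀ H : (Σ i, Fin 2 ⊕ J i) → ℕ, (∀ j, Z ^ C ≤ H j) →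
          |prop ω H (smoothAll 𝓕) (fun t => ∑ i, mestreNagao Z (W i) (members 𝓕 t i) ≤
            ∑ i, (𝓕 i).rk * (∫ y in (0 : ℝ)..1, W i y) + a * Real.sqrt (∑ i, ∫ y in (0 : ℝ)..1, y * W i y ^ 2)) -
            Phi a| ≤ ε) ∧
    -- the proportion for which the sum finds the number of the marked points
    (∀ W : ℝ → ℝ, Continuous W → (∫ y in (0 : ℝ)..1, W y) = 1 → 0 < (∫ y in (0 : ℝ)..1, y * W y ^ 2) ∧
      ∀ (i : I) (ι : Type) [Fintype ι] [DecidableEq ι] (ω : Module.Basis ι ℤ (𝓞 K)) (ε : ℝ), 0 < ε →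
        ∃ C Z₀ : ℕ, ∀ Z : ℕ, Z₀ ≤ Z → ∀ H : (Σ i, Fin 2 ⊕ J i) → ℕ, (∀ j, Z ^ C ≤ H j) →
          |prop ω H (smoothAll 𝓕) (fun t => |mestreNagao Z W (members 𝓕 t i) - (𝓕 i).rk| < 1 / 2) -
            (Phi (1 / 2 / Real.sqrt (∫ y in (0 : ℝ)..1, y * W y ^ 2)) -
              Phi (-(1 / 2 / Real.sqrt (∫ y in (0 : ℝ)..1, y * W y ^ 2))))| ≤ ε) ∧
    -- good weights
    (∀ ε : ℝ, 0 < ε → ∃ W : ℝ → ℝ, Continuous W ∧ (∫ y in (0 : ℝ)..1, W y) = 1 ∧
      ∀ (ι : Type) [Fintype ι] [DecidableEq ι] (ω : Module.Basis ι ℤ (𝓞 K)),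
        ∃ C Z₀ : ℕ, ∀ Z : ℕ, Z₀ ≤ Z → ∀ H : (Σ i, Fin 2 ⊕ J i) → ℕ, (∀ j, Z ^ C ≤ H j) →
          1 - ε ≤ prop ω H (smoothAll 𝓕) (fun t => ∀ i, |mestreNagao Z W (members 𝓕 t i) - (𝓕 i).rk| < 1 / 2)) :=
  ⟨fun W hW hV ι _ _ ω a _ hε => mn_clt 𝓕 ω W hW hV a hε,
    fun W hW h1 => ⟨weight_pos hW (by rw [h1]; exact one_ne_zero), fun i ι _ _ ω _ hε => mn_near 𝓕 ω W hW h1 i hε⟩,
    fun _ hε => mn_good 𝓕 hε⟩

end Pool.Agent.Results.MP_7cad78_nt.LawOfMestreNagaoSums
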