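import Pool.Agent.Q282.NF.LawNF

/-!
# The products of Birch and Swinnerton-Dyer of almost all curves over a number field, in all ranges

Birch and Swinnerton-Dyer found their conjecture from the products `P(X) = ∏ #E(k_v) / q_v` over the good primes `v` of `K` with
`q_v ≤ X`, which should have the size `(log X) ^ rank` up to constants. Three families of curves `y² = x³ + b x² + c x + d` over
the ring of integers of a number field `K` are considered: all cubic polynomials (`r = 0`), the ones with one marked point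
(`r = 1`), and the ones with three marked points with sum zero (`r = 2`), with the parameters in arbitrary boxes (with respect to
a basis of the ring of integers) all of whose sides are at least `T`.

For all curves of the family outside a set of proportion `O((log log X₀) ^ (-A))`, the product has the size
`(log X) ^ (r + 1/2)` up to a factor `exp ((log log X) ^ (1/2 + δ))` for ALL `X` between `X₀` and a fixed power of `T`,
simultaneously; in particular the number `r` can be read off from the product for every single `X` in this range. So in this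
range, which reaches a power of the height, almost all curves behave like curves whose rank is the number of the marked
points (`0`, for all curves: there is no trace of the curves of rank one). The exponent `1/2` comes from the second
moment of the traces of Frobenius; for individual curves it is compensated above the conductor.

The theorem for the logarithm of the product is `Q282.NF.law_nf` of the starting library, which no result of the starting
repository used.
-/

set_option autoImplicit false

namespace Pool.Agent.Results.MP_7cad78_nt.ProductsInAllRanges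

open Finset NumberField IsDedekindDomain Filter

/-- The coefficients `(b, c, d)` of the cubic polynomials `x ^ 3 + b x ^ 2 + c x + d` of the families:
all polynomials (`r = 0`), `(x - t 0) (x ^ 2 + t 2 x + t 3) + (t 1) ^ 2` (`r = 1`), and
`(x - t 0) (x - t 1) (x - t 2) + (t 3 x + t 4) ^ 2` (`r = 2`). -/
def family {R : Type} [CommRing R] : (r : ℕ) → (Fin (r + 3) → R) → R × R × R
  | 0, t => (t 0, t 1, t 2)
  | 1, t => (t 2 - t 0, t 3 - t 0 * t 2, t 1 ^ 2 - t 0 * t 3)
  | _ + 2, t => (t 3 ^ 2 - (t 0 + t 1 + t 2), t 0 * t 1 + t 0 * t 2 + t 1 * t 2 + 2 * t 3 * t 4, t 4 ^ 2 - t 0 * t 1 * t 2)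

/-- The discriminant of `x ^ 3 + b x ^ 2 + c x + d`, where `C = (b, c, d)`. -/
def disc {R : Type} [CommRing R] (C : R × R × R) : R :=
  C.1 ^ 2 * C.2.1 ^ 2 - 4 * C.2.1 ^ 3 - 4 * C.1 ^ 3 * C.2.2 + 18 * C.1 * C.2.1 * C.2.2 - 27 * C.2.2 ^ 2

section

variable {K : Type} [Field K] [NumberField K]

/-- The number of the solutions of `y ^ 2 = x ^ 3 + b x ^ 2 + c x + d` in the residue field of the prime `v` of `K`,
where `C = (b, c, d)` has entries in the ring of integers of `K`. -/
noncomputable def points (C : 𝓞 K × 𝓞 K × 𝓞 K) (v : HeightOneSpectrum (𝓞 K)) : ℕ :=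
  Nat.card {P : (𝓞 K ⧸ v.asIdeal) × (𝓞 K ⧸ v.asIdeal) //
    P.2 ^ 2 = P.1 ^ 3 + (Ideal.Quotient.mk v.asIdeal) C.1 * P.1 ^ 2 + (Ideal.Quotient.mk v.asIdeal) C.2.1 * P.1 +
      (Ideal.Quotient.mk v.asIdeal) C.2.2}

/-- `v` does not divide twice the discriminant. -/
def Good (C : 𝓞 K × 𝓞 K × 𝓞 K) (v : HeightOneSpectrum (𝓞 K)) : Prop := 2 * disc C ∉ v.asIdeal

/-- The product of Birch and Swinnerton-Dyer over `K`: `P(X) = ∏ #E(k_v) / q_v` over all primes `v` of `K` not dividing
twice the discriminant with `q_v = #k_v ≤ X`; here `#E(k_v)` is `points C v + 1`. -/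
noncomputable def product (C : 𝓞 K × 𝓞 K × 𝓞 K) (X : ℕ) : ℝ :=
  ∏ᶠ v ∈ {v : HeightOneSpectrum (𝓞 K) | Good C v ∧ Ideal.absNorm v.asIdeal ≤ X},
    ((points C v : ℝ) + 1) / Ideal.absNorm v.asIdeal

end

/-- The box of the integers `n i j` with `N i j ≤ n i j < N i j + L i j` for all `i`, `j`. -/
noncomputable def box {m d : ℕ} (N : Fin m → Fin d → ℤ) (L : Fin m → Fin d → ℕ) : Finset (Fin m → Fin d → ℤ) :=
  Fintype.piFinset fun i => Fintype.piFinset fun j => Ico (N i j) (N i j + L i j)

/-- The elements `t i = ∑ n i j b j` with the coordinates `n i j`. -/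
def combine {O : Type} [CommRing O] {m d : ℕ} (b : Fin d → O) (n : Fin m → Fin d → ℤ) : Fin m → O :=
  fun i => ∑ j, (n i j : O) * b j

/-- The point `(x, y)` lies on `y ^ 2 = x ^ 3 + b x ^ 2 + c x + d`, where `C = (b, c, d)`. -/
def OnCurve {R : Type} [CommRing R] (C : R × R × R) (x y : R) : Prop := y ^ 2 = x ^ 3 + C.1 * x ^ 2 + C.2.1 * x + C.2.2

lemma family_eq {R : Type} [CommRing R] (r : ℕ) (t : Fin (r + 3) → R) : family r t = Q282.NF.family r t := by
  match r, t with
  | 0, t => rfl
  | 1, t => rfl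
  | _ + 2, t => rfl

open Classical in
/-- **Main theorem.** (a) The marked points. (b) For `r = 0, 1, 2` and all `δ, A > 0` there are `c > 0` and `C`, `X₁` such that
for all bases `b` of the ring of integers, all boxes with sides at least `T` and all `X₀ ≥ 16` the following holds for all
but `C (log log X₀) ^ (-A) · #box` of the members of the box: for all `X` with `X₀ ≤ X ≤ T ^ c` the logarithm of
`P(X)` differs from `(r + 1/2) log log X` by at most `(log log X) ^ (1/2 + δ)`, and if moreover `X ≥ X₁`, then `r` is the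
integer nearest to `log P(X) / log log X - 1/2`. -/
theorem result (K : Type) [Field K] [NumberField K] :
    (∀ t : Fin 4 → 𝓞 K, OnCurve (family 1 t) (t 0) (t 1)) ∧
    (∀ t : Fin 5 → 𝓞 K, OnCurve (family 2 t) (t 0) (t 3 * t 0 + t 4) ∧ OnCurve (family 2 t) (t 1) (t 3 * t 1 + t 4) ∧
      OnCurve (family 2 t) (t 2) (t 3 * t 2 + t 4)) ∧
    ∀ (r : ℕ), r ≤ 2 → ∀ δ A : ℝ, 0 < δ → 0 < A →
    ∃ c : ℝ, 0 < c ∧ ∃ (C : ℝ) (X₁ : ℕ), ∀ (b : Fin (Module.finrank ℚ K) → 𝓞 K),
    (∀ x : 𝓞 K, ∃ a : Fin (Module.finrank ℚ K) → ℤ, x = ∑ j, (a j : 𝓞 K) * b j) →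
    ∀ (N : Fin (r + 3) → Fin (Module.finrank ℚ K) → ℤ) (L : Fin (r + 3) → Fin (Module.finrank ℚ K) → ℕ) (T : ℝ),
    0 < T → (∀ i j, T ≤ L i j) → ∀ X₀ : ℕ, 16 ≤ X₀ →
      (((box N L).filter fun n => ¬ ∀ X : ℕ, X₀ ≤ X → (X : ℝ) ≤ T ^ c →
        |Real.log (product (family r (combine b n)) X) - (r + 1 / 2) * Real.log (Real.log X)| ≤
          (Real.log (Real.log X)) ^ (1 / 2 + δ) ∧
        (X₁ ≤ X → |Real.log (product (family r (combine b n)) X) / Real.log (Real.log X) - 1 / 2 - r| < 1 / 2)).card : ℝ) ≤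
        C * (Real.log (Real.log X₀)) ^ (-A) * (box N L).card := by
  refine ⟨fun t => ?_, fun t => ⟨?_, ?_, ?_⟩, fun r hr δ A hδ hA => ?_⟩
  · unfold OnCurve family
    ring
  · unfold OnCurve family
    ring
  · unfold OnCurve family
    ring
  · unfold OnCurve family
    ring
  obtain ⟨δ', hδ'⟩ : ∃ δ' : ℝ, δ' = min δ (1 / 4) := ⟨_, rfl⟩
  have hδ'0 : 0 < δ' := by rw [hδ']; exact lt_min hδ (by norm_num)
  have hδ'1 : δ' ≤ δ := by rw [hδ']; exact min_le_left _ _
  have hδ'2 : δ' ≤ 1 / 4 := by rw [hδ']; exact min_le_right _ _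
  obtain ⟨c, hc, C, hC0, hC⟩ := Q282.NF.law_nf K r hr δ' A hδ'0 hA
  -- the threshold
  have hev : ∀ᶠ y : ℝ in atTop, y ^ (1 / 2 + δ') < 1 / 2 * y := by
    have h1 : Tendsto (fun y : ℝ => y ^ (1 / 2 - δ')) atTop atTop := tendsto_rpow_atTop (by linarith)
    filter_upwards [h1.eventually_gt_atTop 2, eventually_gt_atTop (0 : ℝ)] with y hy hy0
    have e1 : y = y ^ (1 / 2 + δ') * y ^ (1 / 2 - δ') := by
      rw [← Real.rpow_add hy0]
      have : (1 / 2 + δ' + (1 / 2 - δ') : ℝ) = 1 := by ring
      rw [this, Real.rpow_one]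
    have h2 : 0 < y ^ (1 / 2 + δ') := Real.rpow_pos_of_pos hy0 _
    nlinarith
  obtain ⟨X₂, hX₂⟩ := eventually_atTop.1 (Q282.BP.loglog_tendsto.eventually hev)
  refine ⟨c, hc, C, max X₂ 16, ?_⟩
  intro b hb N L T hT0 hTL X₀ hX₀
  have hmain := hC b hb N L T hT0 hTL X₀ hX₀
  have hcard : ((box N L).card : ℝ) = ∏ i, ∏ j, (L i j : ℝ) := by
    unfold box
    rw [Fintype.card_piFinset]
    push_cast
    refine prod_congr rfl fun i _ => ?_
    rw [Fintype.card_piFinset]
    push_cast
    refine prod_congr rfl fun j _ => ?_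
    rw [Int.card_Ico]
    simp
  rw [hcard]
  refine le_trans ?_ hmain
  apply Nat.cast_le.2
  apply card_le_card
  intro n hn
  rw [mem_filter] at hn ⊢
  refine ⟨hn.1, fun hall => hn.2 fun X hX0 hXT => ?_⟩
  have h1 := hall X hX0 hXT
  rw [← family_eq] at h1
  have hX16 : 16 ≤ X := hX₀.trans hX0
  have hll : 1 ≤ Real.log (Real.log X) := by
    have e1 : (16 : ℝ) ≤ X := by exact_mod_cast hX16
    have e2 : Real.log 16 = 4 * Real.log 2 := by
      rw [show (16 : ℝ) = 2 ^ 4 by norm_num, Real.log_pow]
      norm_num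
    have e3 : Real.exp 1 ≤ Real.log 16 := by
      rw [e2]
      linarith [Real.exp_one_lt_d9, Real.log_two_gt_d9]
    have e4 : Real.exp 1 ≤ Real.log X := e3.trans (Real.log_le_log (by norm_num) e1)
    have e5 := Real.log_le_log (Real.exp_pos 1) e4
    rwa [Real.log_exp] at e5
  refine ⟨h1.trans (Real.rpow_le_rpow_of_exponent_le hll (by linarith)), fun hX1 => ?_⟩
  have h2 := hX₂ X ((le_max_left _ _).trans hX1)
  have h3 : |Real.log (product (family r (combine b n)) X) - (r + 1 / 2) * Real.log (Real.log X)| <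
      1 / 2 * Real.log (Real.log X) := h1.trans_lt h2
  have hy : 0 < Real.log (Real.log X) := by linarith
  have e6 : Real.log (product (family r (combine b n)) X) / Real.log (Real.log X) - 1 / 2 - r =
      (Real.log (product (family r (combine b n)) X) - (r + 1 / 2) * Real.log (Real.log X)) / Real.log (Real.log X) := by
    field_simp
    ring
  rw [e6, abs_div, abs_of_pos hy, div_lt_iff₀ hy]
  exact h3

end Pool.Agent.Results.MP_7cad78_nt.ProductsInAllRanges
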