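import Mathlib
import Pool.Agent.Run7.h318.CH.E5

/-!
# Ranks over abelian number fields of 2-power degree

Let `F` be any number field which is Galois over `ℚ` with abelian group of order a power of two (for
example the cyclic fields of degree `4`, `8`, ..., the layers of the cyclotomic `ℤ_2`-extension, the
multiquadratic fields).

Theorem. 1. Let `E` be an elliptic curve over `ℚ` with full rational 2-torsion, `E : y² = x (x - a) (x - b)`, and
`E^d : y² = x (x - a d) (x - b d)` its quadratic twists. All the exponential moments of the rank of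
`E^d(F)` are bounded: for every real `c ≥ 1` the average of `c ^ (rank E^d(F))` over the `d` in an
interval of length `H` is bounded, uniformly over all the intervals whose distance from the origin is
at most a power of `H`. In particular the proportion of the `d` with `rank E^d(F) ≥ M` is at most
`C / c ^ M`, for every `c`.

2. The average of `4 ^ (rank E(F) / [F : ℚ])` over all the elliptic curves `E / ℚ` with full rational
2-torsion, ordered by height, is bounded. In particular the average rank (and the average of every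
power of the rank) of `E(F)` is bounded.

For `F = ℚ` the first part is known (Heath-Brown, Swinnerton-Dyer, Kane for the intervals `(0, H]`), and for
the multiquadratic fields both parts follow from the case of `ℚ`. The new case is the one in which the
group has elements of order `4`.

The proof. `E(F) ⊗ ℂ` is the sum of its `χ`-parts over the characters `χ` of the Galois group. Let `χ` have
order `2 ^ (k + 1)`, `ζ = χ(g)` a generator of the image, `M ⊆ E(F)` the subgroup on which the kernel of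
`χ` acts trivially and `χ(τ) = -1` implies `τ = -1`. `M` is a module over `ℤ[ζ]`, of rank
`m_χ` (the dimension of the `χ`-part) modulo torsion, and `2 ^ m_χ` is at most the
order of `M / (1 - g) M`. For `P` in `M` let `2 Q = (1 + g + ... + g ^ (2 ^ k - 1)) P`, with `Q` over an algebraic
closure. Because `(1 - g) (1 + g + ... + g ^ (2 ^ k - 1)) = 2` on `M`, one gets a homomorphism from the
absolute Galois group of `ℚ` to `E[2]`, that is, a pair of squarefree integers, and the pair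
determines `P` modulo `(1 - g) M`. At a large prime `p` where the Frobenius of the fixed field of
`χ ^ 2` is trivial, the pair comes from a point over `ℚ_p` of a quadratic twist of `E` by a unit (the
twist depends on `p` only), so that it satisfies the conditions of the 2-descent of the twist. At the
other large primes the pair is unramified, whatever the reduction of `E` is. Therefore only the
primes of the first kind contribute, with the same local conditions as in the 2-descent, in which the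
types of the reduction are permuted by the twist. The moments of the number of the solutions are
then bounded by the method of Heath-Brown: the Jacobi symbols between the variables, which are now
supported on the primes which split in the fixed field of `χ ^ 2`, give bounded sums because
a quadratic character of large conductor is not a character of this field. The counting of
the curves is the one of helper69 (`Pool/Agent/Run7/h69`, used there for the rank over `ℚ`).
-/

set_option autoImplicit false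
set_option linter.unusedSectionVars false

namespace Pool.Agent.Results.MP_7cad78_nt.RanksOverTwoPowerAbelianFields

open Finset Filter
open scoped Classical TensorProduct

/-- The group `W(F)`. -/
def Pts (F : Type) [Field F] [CharZero F] (W : WeierstrassCurve ℚ) : Type :=
  (W.baseChange F).toAffine.Point

noncomputable instance instPts (F : Type) [Field F] [CharZero F] (W : WeierstrassCurve ℚ) :
    AddCommGroup (Pts F W) :=
  (inferInstance : AddCommGroup (W.baseChange F).toAffine.Point)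

/-- The rank of the group `W(F)`. -/
noncomputable def rk (F : Type) [Field F] [CharZero F] (W : WeierstrassCurve ℚ) : ℕ :=
  Module.finrank ℤ (Pts F W)

/-! ### The families -/

/-- The curve `y ^ 2 = x (x - a) (x - b)` over `ℚ`. Every elliptic curve over `ℚ` with full rational
2-torsion is isomorphic to such a curve with integers `a`, `b`, and the curve with `a d`, `b d` is its
quadratic twist by `d`. -/
def E (a b : ℤ) : WeierstrassCurve ℚ := ⟨0, -((a : ℚ) + b), 0, (a : ℚ) * b, 0⟩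

/-- The equation `y ^ 2 = x ^ 3 + A x + B` with integers `A`, `B` defines an elliptic curve, and
there is no prime `p` with `p ^ 4 ∣ A` and `p ^ 6 ∣ B`. Every elliptic curve over `ℚ` is isomorphic to
exactly one of these. -/
structure IsMinimal (A B : ℤ) : Prop where
  elliptic : 4 * A ^ 3 + 27 * B ^ 2 ≠ 0
  minimal : ∀ p : ℕ, p.Prime → ¬ ((p : ℤ) ^ 4 ∣ A ∧ (p : ℤ) ^ 6 ∣ B)

/-- The height. -/
def height (c : ℤ × ℤ) : ℤ := max (4 * |c.1| ^ 3) (27 * c.2 ^ 2)

/-- The curve `y ^ 2 = x ^ 3 + A x + B` over `ℚ`. -/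
def curve (c : ℤ × ℤ) : WeierstrassCurve ℚ := ⟨0, 0, 0, (c.1 : ℚ), (c.2 : ℚ)⟩

/-- The group of the rational points contains `Z/2 x Z/2`. -/
def FullTwo (W : WeierstrassCurve ℚ) : Prop :=
  ∃ f : ZMod 2 × ZMod 2 →+ W.toAffine.Point, Function.Injective f

/-- The set of all the elliptic curves over `ℚ` with full rational 2-torsion of height at most
`X`. (The bounds `|A|, |B| ≤ X` follow from the bound of the height.) -/
noncomputable def Fam (X : ℕ) : Finset (ℤ × ℤ) :=
  ((Icc (-(X : ℤ)) X) ×ˢ (Icc (-(X : ℤ)) X)).filter (fun c =>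
    IsMinimal c.1 c.2 ∧ height c ≤ X ∧ FullTwo (curve c))

/-- The integers `d ≠ 0` with `x < d ≤ x + H`. -/
noncomputable def Interval (x : ℤ) (H : ℕ) : Finset ℤ := (Ioc x (x + H)).filter (fun d => d ≠ 0)

/-! ### The proof -/

open Pool.Agent.W307.RT (Cv Sh)
open Run7.h318.CH (Eig rF)

section proof

lemma height_le {c : ℤ × ℤ} {X : ℕ} : height c ≤ X ↔ 4 * |c.1| ^ 3 ≤ X ∧ 27 * c.2 ^ 2 ≤ X := by
  unfold height
  exact max_le_iff

lemma Fam_eq (X : ℕ) : Fam X = Cv 2 X := by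
  ext c
  have h : Pool.Agent.W307.RT.HasT 2 (Sh c.1 c.2) ↔ FullTwo (curve c) :=
    Pool.Agent.W307.RT.tors_iff
  unfold Fam Cv
  rw [mem_filter, mem_filter, h, height_le]
  constructor
  · rintro ⟨h0, ⟨h1, h2⟩, ⟨h3, h4⟩, h5⟩
    exact ⟨h0, h1, h3, h4, h2, h5⟩
  · rintro ⟨h0, h1, h3, h4, h2, h5⟩
    exact ⟨h0, ⟨h1, h2⟩, ⟨h3, h4⟩, h5⟩

lemma fin_c {F : Type} [Field F] [NumberField F] {X : ℕ} {c : ℤ × ℤ} (hc : c ∈ Cv 2 X) :
    Module.Finite ℤ (Pool.Agent.W262.SH.Pt (Sh c.1 c.2) F) := by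
  unfold Cv at hc
  rw [mem_filter] at hc
  exact Run7.h318.CH.fin_pts F hc.2.1

lemma nat_of {ε : ℝ} (hε : 0 < ε) {x : ℤ} {H : ℕ} (hH : 1 ≤ H) (hx : |(x : ℝ)| ^ ε ≤ H) :
    x.natAbs ≤ H ^ ⌈1 / ε⌉₊ := by
  have hHr : (1 : ℝ) ≤ H := by exact_mod_cast hH
  have h2 : |(x : ℝ)| ≤ (H : ℝ) ^ (⌈1 / ε⌉₊ : ℝ) := by
    calc |(x : ℝ)| = (|(x : ℝ)| ^ ε) ^ (1 / ε) := by
          rw [← Real.rpow_mul (abs_nonneg _), mul_one_div_cancel hε.ne', Real.rpow_one]
      _ ≤ (H : ℝ) ^ (1 / ε) := Real.rpow_le_rpow (by positivity) hx (by positivity)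
      _ ≤ (H : ℝ) ^ (⌈1 / ε⌉₊ : ℝ) := Real.rpow_le_rpow_of_exponent_le hHr (Nat.le_ceil _)
  rw [Real.rpow_natCast] at h2
  have h3 : ((x.natAbs : ℕ) : ℝ) = |(x : ℝ)| := by
    rw [Nat.cast_natAbs, Int.cast_abs]
  have h4 : ((x.natAbs : ℕ) : ℝ) ≤ ((H ^ ⌈1 / ε⌉₊ : ℕ) : ℝ) := by
    rw [h3]
    push_cast
    exact h2
  exact_mod_cast h4

variable {F : Type} [Field F] [NumberField F] [IsGalois ℚ F]

/-- the rank is at most the degree times the largest multiplicity -/
lemma exists_max (hab : ∀ g h : F ≃ₐ[ℚ] F, g * h = h * g) (W : WeierstrassCurve ℚ)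
    (hfin : Module.Finite ℤ (Pool.Agent.W262.SH.Pt W F)) [Fintype ((F ≃ₐ[ℚ] F) →* ℂˣ)] :
    ∃ χ : (F ≃ₐ[ℚ] F) →* ℂˣ, rk F W ≤ Module.finrank ℚ F * Module.finrank ℂ (Eig (rF F W) χ) := by
  let _ : CommGroup (F ≃ₐ[ℚ] F) := { (inferInstance : Group (F ≃ₐ[ℚ] F)) with mul_comm := hab }
  have : Fintype (F ≃ₐ[ℚ] F) := Fintype.ofFinite _
  have h1 : Module.finrank ℤ (Pts F W) ≤
      ∑ χ : (F ≃ₐ[ℚ] F) →* ℂˣ, Module.finrank ℂ (Eig (rF F W) χ) :=
    Run7.h318.CH.sum_eig (ρ := rF F W) hfin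
  obtain ⟨χ0, -, h0⟩ := exists_max_image (univ : Finset ((F ≃ₐ[ℚ] F) →* ℂˣ))
    (fun χ => Module.finrank ℂ (Eig (rF F W) χ)) ⟨1, mem_univ _⟩
  have h2 : ∑ χ : (F ≃ₐ[ℚ] F) →* ℂˣ, Module.finrank ℂ (Eig (rF F W) χ) ≤
      Fintype.card ((F ≃ₐ[ℚ] F) →* ℂˣ) * Module.finrank ℂ (Eig (rF F W) χ0) := by
    have h3 := sum_le_card_nsmul (univ : Finset ((F ≃ₐ[ℚ] F) →* ℂˣ))
      (fun χ => Module.finrank ℂ (Eig (rF F W) χ)) _ h0
    rwa [smul_eq_mul, card_univ] at h3
  have hcard : Fintype.card ((F ≃ₐ[ℚ] F) →* ℂˣ) = Module.finrank ℚ F := by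
    rw [← Nat.card_eq_fintype_card,
      CommGroup.card_monoidHom_of_hasEnoughRootsOfUnity (F ≃ₐ[ℚ] F) ℂ]
    exact IsGalois.card_aut_eq_finrank ℚ F
  rw [hcard] at h2
  exact ⟨χ0, h1.trans h2⟩

lemma chi_pow {n : ℕ} (hn : Module.finrank ℚ F = 2 ^ n) (χ : (F ≃ₐ[ℚ] F) →* ℂˣ)
    (σ : F ≃ₐ[ℚ] F) : χ σ ^ (2 ^ n) = 1 := by
  have hcard : Nat.card (F ≃ₐ[ℚ] F) = 2 ^ n := by
    rw [← hn]
    exact IsGalois.card_aut_eq_finrank ℚ F
  rw [← map_pow, ← hcard, pow_card_eq_one', map_one]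

end proof

/-- **Theorem.** Let `F` be a number field, Galois over `ℚ` with abelian group of order a power of two.

1. For all the integers `a`, `b` with `a b (a - b) ≠ 0`, all real `c ≥ 1` and `ε > 0` there is `C` such
that for all the intervals `(x, x + H]` with `|x| ^ ε ≤ H` the sum of `c ^ (rank E^d(F))` over the integers
`d ≠ 0` of the interval is at most `C H`; `E^d` is the quadratic twist by `d` of `y ^ 2 = x (x - a) (x - b)`.

2. The average of `4 ^ (rank W(F) / [F : ℚ])` over all the elliptic curves `W` over `ℚ` with full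
rational 2-torsion, ordered by height, is bounded. -/
theorem result (F : Type) [Field F] [NumberField F] [IsGalois ℚ F]
    (hab : ∀ g h : F ≃ₐ[ℚ] F, g * h = h * g) (h2 : ∃ n : ℕ, Module.finrank ℚ F = 2 ^ n) :
    (∀ a b : ℤ, a ≠ 0 → b ≠ 0 → a ≠ b →
      (∀ d : ℤ, d ≠ 0 → Module.Finite ℤ (Pts F (E (a * d) (b * d)))) ∧
      ∀ c ε : ℝ, 1 ≤ c → 0 < ε → ∃ C : ℝ, ∀ (x : ℤ) (H : ℕ), 1 ≤ H → |(x : ℝ)| ^ ε ≤ H →
        ∑ d ∈ Interval x H, c ^ rk F (E (a * d) (b * d)) ≤ C * H) ∧
    Tendsto (fun X : ℕ => (Fam X).card) atTop atTop ∧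
    (∀ X : ℕ, ∀ c ∈ Fam X, Module.Finite ℤ (Pts F (curve c))) ∧
    ∃ C : ℝ, ∀ X : ℕ, ∑ c ∈ Fam X,
      (4 : ℝ) ^ ((rk F (curve c) : ℝ) / (Module.finrank ℚ F : ℝ)) ≤ C * (Fam X).card := by
  obtain ⟨n, hn⟩ := h2
  have _ : Finite ((F ≃ₐ[ℚ] F) →* ℂˣ) := inferInstance
  have _ : Fintype ((F ≃ₐ[ℚ] F) →* ℂˣ) := Fintype.ofFinite _
  have hpos : 0 < Module.finrank ℚ F := Module.finrank_pos
  refine ⟨fun a b ha hb hne => ⟨fun d hd => ?_, ?_⟩, ?_, ?_, ?_⟩
  · exact Run7.h318.CH.fin_E F (mul_ne_zero ha hd) (mul_ne_zero hb hd)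
      (fun h => hne (mul_right_cancel₀ hd h))
  · intro c ε hc hε
    obtain ⟨m0, hm0⟩ := pow_unbounded_of_one_lt c (one_lt_two : (1 : ℝ) < 2)
    set m : ℕ := (m0 + 1) * Module.finrank ℚ F with hm
    have hm1 : 1 ≤ m := Nat.mul_pos (by omega) hpos
    choose C hC using fun χ : (F ≃ₐ[ℚ] F) →* ℂˣ =>
      Run7.h318.CH.main_tw' F χ (chi_pow hn χ) ha hb hne hm1 ⌈1 / ε⌉₊
    refine ⟨∑ χ, C χ, fun x H hH hx => ?_⟩
    have hx' := nat_of hε hH hx
    have key : ∀ d ∈ Interval x H, c ^ rk F (E (a * d) (b * d)) ≤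
        ∑ χ : (F ≃ₐ[ℚ] F) →* ℂˣ, ((2 : ℝ) ^ Module.finrank ℂ
          (Eig (rF F (Pool.Agent.W262.SH.E (a * d) (b * d))) χ)) ^ m := by
      intro d hd
      unfold Interval at hd
      have hd0 := (mem_filter.1 hd).2
      obtain ⟨χ0, h0⟩ := exists_max hab (Pool.Agent.W262.SH.E (a * d) (b * d))
        (Run7.h318.CH.fin_E F (mul_ne_zero ha hd0) (mul_ne_zero hb hd0)
          (fun h => hne (mul_right_cancel₀ hd0 h)))
      have h3 : rk F (E (a * d) (b * d)) ≤ Module.finrank ℚ F *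
        Module.finrank ℂ (Eig (rF F (Pool.Agent.W262.SH.E (a * d) (b * d))) χ0) := h0
      calc c ^ rk F (E (a * d) (b * d)) ≤ ((2 : ℝ) ^ (m0 + 1)) ^ rk F (E (a * d) (b * d)) := by
            apply pow_le_pow_left₀ (by linarith)
            have h4 : (2 : ℝ) ^ m0 ≤ 2 ^ (m0 + 1) := pow_le_pow_right₀ (by norm_num) (by omega)
            linarith
        _ ≤ ((2 : ℝ) ^ (m0 + 1)) ^ (Module.finrank ℚ F *
            Module.finrank ℂ (Eig (rF F (Pool.Agent.W262.SH.E (a * d) (b * d))) χ0)) :=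
            pow_le_pow_right₀ (one_le_pow₀ (by norm_num)) h3
        _ = ((2 : ℝ) ^ Module.finrank ℂ
            (Eig (rF F (Pool.Agent.W262.SH.E (a * d) (b * d))) χ0)) ^ m := by
            rw [← pow_mul, ← pow_mul, hm]
            congr 1
            ring
        _ ≤ _ := single_le_sum (f := fun χ => ((2 : ℝ) ^ Module.finrank ℂ
            (Eig (rF F (Pool.Agent.W262.SH.E (a * d) (b * d))) χ)) ^ m)
            (fun χ _ => by positivity) (mem_univ χ0)
    calc ∑ d ∈ Interval x H, c ^ rk F (E (a * d) (b * d))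
        ≤ ∑ d ∈ Interval x H, ∑ χ : (F ≃ₐ[ℚ] F) →* ℂˣ, ((2 : ℝ) ^ Module.finrank ℂ
          (Eig (rF F (Pool.Agent.W262.SH.E (a * d) (b * d))) χ)) ^ m := sum_le_sum key
      _ = ∑ χ : (F ≃ₐ[ℚ] F) →* ℂˣ, ∑ d ∈ Interval x H, ((2 : ℝ) ^ Module.finrank ℂ
          (Eig (rF F (Pool.Agent.W262.SH.E (a * d) (b * d))) χ)) ^ m := sum_comm
      _ ≤ ∑ χ : (F ≃ₐ[ℚ] F) →* ℂˣ, C χ * H := sum_le_sum fun χ _ => hC χ x H hH hx'
      _ = _ := by rw [sum_mul]
  · simp only [Fam_eq]
    exact Pool.Agent.W307.RT.tendsto_of_low Run7.h69.UH.low2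
  · intro X c hc
    rw [Fam_eq] at hc
    exact fin_c (F := F) hc
  · choose C hC using fun χ : (F ≃ₐ[ℚ] F) →* ℂˣ => Run7.h318.CH.main' F χ (chi_pow hn χ)
    refine ⟨∑ χ, C χ, fun X => ?_⟩
    rw [Fam_eq]
    have hposr : (0 : ℝ) < Module.finrank ℚ F := by exact_mod_cast hpos
    have key : ∀ c ∈ Cv 2 X, (4 : ℝ) ^ ((rk F (curve c) : ℝ) / (Module.finrank ℚ F : ℝ)) ≤
        ∑ χ : (F ≃ₐ[ℚ] F) →* ℂˣ, ((2 : ℝ) ^ Module.finrank ℂ (Eig (rF F (curve c)) χ)) ^ 2 := by
      intro c hc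
      obtain ⟨χ0, h0⟩ := exists_max hab (curve c) (fin_c (F := F) hc)
      have h3 : (rk F (curve c) : ℝ) / (Module.finrank ℚ F : ℝ) ≤
          Module.finrank ℂ (Eig (rF F (curve c)) χ0) := by
        rw [div_le_iff₀ hposr, mul_comm]
        exact_mod_cast h0
      calc (4 : ℝ) ^ ((rk F (curve c) : ℝ) / (Module.finrank ℚ F : ℝ))
          ≤ (4 : ℝ) ^ ((Module.finrank ℂ (Eig (rF F (curve c)) χ0) : ℕ) : ℝ) :=
            Real.rpow_le_rpow_of_exponent_le (by norm_num) h3
        _ = ((2 : ℝ) ^ Module.finrank ℂ (Eig (rF F (curve c)) χ0)) ^ 2 := by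
            rw [Real.rpow_natCast, ← pow_mul, mul_comm, pow_mul]
            norm_num
        _ ≤ _ := single_le_sum
            (f := fun χ => ((2 : ℝ) ^ Module.finrank ℂ (Eig (rF F (curve c)) χ)) ^ 2)
            (fun χ _ => by positivity) (mem_univ χ0)
    calc _ ≤ ∑ c ∈ Cv 2 X, ∑ χ : (F ≃ₐ[ℚ] F) →* ℂˣ,
          ((2 : ℝ) ^ Module.finrank ℂ (Eig (rF F (curve c)) χ)) ^ 2 := sum_le_sum key
      _ = ∑ χ : (F ≃ₐ[ℚ] F) →* ℂˣ, ∑ c ∈ Cv 2 X,
          ((2 : ℝ) ^ Module.finrank ℂ (Eig (rF F (curve c)) χ)) ^ 2 := sum_comm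
      _ ≤ ∑ χ : (F ≃ₐ[ℚ] F) →* ℂˣ, C χ * (Cv 2 X).card := sum_le_sum fun χ _ => hC χ X
      _ = _ := by rw [sum_mul]

end Pool.Agent.Results.MP_7cad78_nt.RanksOverTwoPowerAbelianFields
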